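import Pool.Agent.P8H96.RL.Stm
import Pool.Agent.H904L2.Graeffe
import Pool.Agent.H904L2.NotSquare

/-!
# Project RL, parts GE and ODD (helper44)
-/

set_option autoImplicit false

open Polynomial

namespace Pool.Agent.P8H44.RL

open H904L2 H904L2.Graeffe H904L2.NotSquare Pool.Agent.P8H96.RL

theorem even_of' {O : Type} [CommRing O] [IsDomain O] [CharZero O] (P : O[X])
    (h : P.comp (-X) = P) : (contract 2 P).comp (X ^ 2) = P := by
  rw [← expand_eq_comp_X_pow]
  ext n
  rw [coeff_expand (by norm_num : 0 < 2)]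
  split_ifs with hn
  · rw [coeff_contract (by norm_num : 2 ≠ 0), Nat.div_mul_cancel hn]
  · have h1 := congrArg (fun Q : O[X] => Q.coeff n) h
    simp only [coeff_neg_X] at h1
    have h2 : Odd n := by
      rwa [← Nat.not_even_iff_odd, even_iff_two_dvd]
    rw [h2.neg_one_pow] at h1
    have h3 : 2 * P.coeff n = 0 := by linear_combination -h1
    rcases mul_eq_zero.1 h3 with h4 | h4
    · exact absurd h4 two_ne_zero
    · exact h4.symm

theorem ge : S_GE := by
  intro O _ _ _ R
  have h : (contract 2 (R * R.comp (-X))).comp (X ^ 2) = R * R.comp (-X) := by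
    apply even_of'
    rw [mul_comp_neg_X, comp_neg_X_comp_neg_X, mul_comm]
  refine ⟨contract 2 (R * R.comp (-X)), h, ?_⟩
  intro e ι _ a hR
  apply comp_sq_inj
  have h3 := congrArg (fun P : O[X] => P.map e) h
  simp only [Polynomial.map_comp, Polynomial.map_mul, Polynomial.map_pow, Polynomial.map_X,
    Polynomial.map_neg, hR] at h3
  rw [h3, prod_comp, prod_comp, ← Finset.prod_mul_distrib]
  apply Finset.prod_congr rfl
  intro i _
  simp only [sub_comp, one_comp, mul_comp, C_comp, X_comp]
  rw [map_pow]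
  ring

theorem odd : S_ODD := by
  classical
  intro ι κ _ _ x y hinj hx hy P Q hQ heq i
  have hA : (∏ i, (1 - C (x i) * X) : ℂ[X]) ≠ 0 :=
    Finset.prod_ne_zero_iff.mpr fun i _ => fac_ne _ (hx i)
  have hB : (∏ i, (1 - C (y i) * X) : ℂ[X]) ≠ 0 :=
    Finset.prod_ne_zero_iff.mpr fun i _ => fac_ne _ (hy i)
  have hroots := congrArg Polynomial.roots heq
  rw [roots_mul (mul_ne_zero (pow_ne_zero 2 hQ) (mul_ne_zero hA hB)), roots_mul (mul_ne_zero hA hB),
    roots_pow, roots_pow] at hroots
  have hc := congrArg (Multiset.count (x i)⁻¹) hroots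
  rw [Multiset.count_add, Multiset.count_add, Multiset.count_nsmul, Multiset.count_nsmul,
    count_prod _ hx, count_prod _ hy] at hc
  have h1 : (Finset.univ.filter fun j => (x i)⁻¹ = (x j)⁻¹) = {i} := by
    ext j
    simp only [Finset.mem_filter, Finset.mem_univ, true_and, Finset.mem_singleton, inv_inj]
    constructor
    · intro h
      exact (hinj h).symm
    · rintro rfl
      rfl
  rw [h1, Finset.card_singleton] at hc
  have hpos : 0 < (Finset.univ.filter fun j => (x i)⁻¹ = (y j)⁻¹).card := by
    omega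
  obtain ⟨j, hj⟩ := Finset.card_pos.mp hpos
  simp only [Finset.mem_filter, Finset.mem_univ, true_and, inv_inj] at hj
  exact ⟨j, hj.symm⟩

end Pool.Agent.P8H44.RL
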