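import Pool.Agent.P8H96.RL.Stm

/-!
# Project RL, parts SUM2 and ROT (helper44)
-/

set_option autoImplicit false

open Polynomial
open scoped Real

namespace Pool.Agent.P8H44.RL

open H904L2 H904L2.Envelope Pool.Agent.N772.CZ Pool.Agent.P8H96.RL

theorem sum2 : S_SUM2 := by
  intro s
  have hfin : {z | z ∈ s}.Finite := by
    classical
    refine (s.toFinset.finite_toSet).subset ?_
    intro z hz
    simpa using hz
  have hcont : ∀ w : ℂ, Continuous (spike w) := by
    intro w
    have : spike w = tent (Real.posLog ‖w‖) w.arg := by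
      funext x
      exact spike_eq w x
    rw [this]
    exact tent_continuous _ _
  have hint : ∀ w : ℂ, ∫ x in (-π)..π, spike w x ≤ Real.posLog ‖w‖ ^ 2 := by
    intro w
    have : (fun x => spike w x) = tent (Real.posLog ‖w‖) w.arg := by
      funext x
      exact spike_eq w x
    rw [this]
    exact integral_tent _ _ Real.posLog_nonneg
  have h1 := integral_multiset_sum_le s spike hcont (fun z => Real.posLog ‖z‖ ^ 2) hint
  refine le_trans ?_ h1
  unfold area
  apply intervalIntegral.integral_mono_on (by linarith [Real.pi_pos])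
  · exact (RF_continuous hfin).intervalIntegrable _ _
  · exact (continuous_multiset_sum s spike hcont).intervalIntegrable _ _
  · intro x _
    apply RF_le
    · apply Multiset.sum_nonneg
      intro a ha
      obtain ⟨w, _, rfl⟩ := Multiset.mem_map.1 ha
      exact spike_nonneg w x
    · intro z hz
      refine Multiset.single_le_sum ?_ _ (Multiset.mem_map_of_mem (fun w => spike w x) hz)
      intro a ha
      obtain ⟨w, _, rfl⟩ := Multiset.mem_map.1 ha
      exact spike_nonneg w x

theorem spike_zero (x : ℝ) : spike 0 x = 0 := by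
  unfold spike
  rw [norm_zero, Real.log_zero, max_eq_left]
  have := dc_nonneg (x - (0 : ℂ).arg)
  linarith

theorem spike_rot (ω z : ℂ) (hω : ‖ω‖ = 1) (x : ℝ) : spike (ω * z) x = spike z (x - ω.arg) := by
  rcases eq_or_ne z 0 with h0 | h0
  · rw [h0, mul_zero, spike_zero, spike_zero]
  · have hω0 : ω ≠ 0 := by
      rintro rfl
      rw [norm_zero] at hω
      exact zero_ne_one hω
    unfold spike
    rw [norm_mul, hω, one_mul]
    congr 2
    unfold dc
    congr 1
    have h1 : (((ω * z).arg : ℝ) : AddCircle (2 * π)) = (ω.arg : AddCircle (2 * π)) + (z.arg : ℝ) :=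
      Complex.arg_mul_coe_angle hω0 h0
    rw [AddCircle.coe_sub, AddCircle.coe_sub, AddCircle.coe_sub, h1]
    abel

theorem rot : S_ROT := by
  intro Z hZ ω hω
  have hZ2 : ((fun z => ω * z) '' Z).Finite := hZ.image _
  have h1 : ∀ x, RF ((fun z => ω * z) '' Z) x = RF Z (x - ω.arg) := by
    intro x
    apply le_antisymm
    · apply RF_le (RF_nonneg _ _)
      rintro _ ⟨z, hz, rfl⟩
      simp only
      rw [spike_rot ω z hω]
      exact spike_le_RF hZ hz _
    · apply RF_le (RF_nonneg _ _)
      intro z hz
      rw [← spike_rot ω z hω]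
      exact spike_le_RF hZ2 ⟨z, hz, rfl⟩ _
  unfold area
  simp only [h1]
  exact integral_shift (RF_periodic Z) ω.arg

end Pool.Agent.P8H44.RL
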