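import Pool.Agent.P8H96.RL.Stm

/-!
# Project RL, parts SC and DEG (helper44)
-/

set_option autoImplicit false

open Polynomial
open scoped NumberField

namespace Pool.Agent.P8H44.RL

open Pool.Agent.P8H96.RL

theorem irreducible_scaleRoots {k : Type} [Field k] {Q : k[X]} (hQ : Irreducible Q) {r : k}
    (hr : r ≠ 0) : Irreducible (Q.scaleRoots r) := by
  constructor
  · intro h
    apply hQ.not_isUnit
    rw [Polynomial.isUnit_iff_degree_eq_zero] at h ⊢
    rwa [degree_scaleRoots] at h
  · intro A B hAB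
    have h1 : Q = A.scaleRoots r⁻¹ * B.scaleRoots r⁻¹ := by
      rw [← mul_scaleRoots_of_noZeroDivisors, ← hAB, ← scaleRoots_mul, mul_inv_cancel₀ hr,
        scaleRoots_one]
    rcases hQ.isUnit_or_isUnit h1 with h | h
    · left
      rw [Polynomial.isUnit_iff_degree_eq_zero] at h ⊢
      rwa [degree_scaleRoots] at h
    · right
      rw [Polynomial.isUnit_iff_degree_eq_zero] at h ⊢
      rwa [degree_scaleRoots] at h

theorem sc : S_SC := by
  intro k _ _ P u hP hi
  constructor
  · rw [map_scaleRoots _ _ _ (by rw [hP.leadingCoeff, map_one]; exact one_ne_zero)]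
    apply irreducible_scaleRoots hi
    have h1 : (u : 𝓞 k) ≠ 0 := u.ne_zero
    exact fun h => h1 ((FaithfulSMul.algebraMap_injective (𝓞 k) k) (by rw [h, map_zero]))
  · intro σ
    have hu : emb σ u ≠ 0 := (u.isUnit.map (emb σ)).ne_zero
    have h1 : (P.scaleRoots (u : 𝓞 k)).map (emb σ) = (P.map (emb σ)).scaleRoots (emb σ u) :=
      map_scaleRoots _ _ _ (by rw [hP.leadingCoeff, map_one]; exact one_ne_zero)
    have h2 : ∀ z, ((P.map (emb σ)).scaleRoots (emb σ u)).eval (emb σ u * z) =
        (emb σ u) ^ (P.map (emb σ)).natDegree * (P.map (emb σ)).eval z :=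
      fun z => scaleRoots_eval_mul _ _ _
    ext w
    simp only [zs, Set.mem_ofPred_eq, Set.mem_image]
    rw [h1]
    constructor
    · intro hw
      refine ⟨(emb σ u)⁻¹ * w, ?_, by rw [← mul_assoc, mul_inv_cancel₀ hu, one_mul]⟩
      have h3 := h2 ((emb σ u)⁻¹ * w)
      rw [← mul_assoc, mul_inv_cancel₀ hu, one_mul, hw] at h3
      rcases mul_eq_zero.1 h3.symm with h4 | h4
      · exact absurd h4 (pow_ne_zero _ hu)
      · exact h4
    · rintro ⟨z, hz, rfl⟩
      rw [h2 z, hz, mul_zero]

theorem isInt0 (α : AlgebraicClosure ℚ) : IsIntegral ℚ α := by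
  obtain ⟨p, hp, h⟩ := (AlgebraicClosure.isAlgebraic ℚ).isIntegral.isIntegral α
  refine ⟨p, hp, ?_⟩
  rw [← h]
  congr 1

theorem isInt {K : Type} [Field K] [Algebra K (AlgebraicClosure ℚ)] (α : AlgebraicClosure ℚ) :
    IsIntegral K α := by
  have : CharZero K := (algebraMap K (AlgebraicClosure ℚ)).charZero
  obtain ⟨p, hp, h⟩ := isInt0 α
  refine ⟨p.map (Rat.castHom K), hp.map _, ?_⟩
  rw [eval₂_map, ← h]
  congr 1
  exact Subsingleton.elim _ _

open IntermediateField in
theorem deg : S_DEG := by
  intro F hF L hL α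
  have hintL : IsIntegral L α := isInt α
  have hintF : IsIntegral F α := isInt α
  -- the minimal polynomial over `F` divides the one over `L`
  let j : L →+* F :=
    { toFun := fun x => ⟨x, hL x x.2⟩
      map_one' := rfl
      map_mul' := fun _ _ => rfl
      map_zero' := rfl
      map_add' := fun _ _ => rfl }
  have hj : (algebraMap F (AlgebraicClosure ℚ)).comp j = algebraMap L (AlgebraicClosure ℚ) := by
    ext x
    rfl
  have h1 : (minpoly F α).natDegree ≤ (minpoly L α).natDegree := by
    have h2 : aeval α ((minpoly L α).map j) = 0 := by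
      rw [aeval_def, eval₂_map, hj, ← aeval_def, minpoly.aeval]
    have h3 : ((minpoly L α).map j).Monic := (minpoly.monic hintL).map j
    have h4 := natDegree_le_of_dvd (minpoly.dvd F α h2) h3.ne_zero
    rwa [(minpoly.monic hintL).natDegree_map] at h4
  have h5 : Module.finrank Qab F⟮α⟯ = Module.finrank Qab F * (minpoly F α).natDegree := by
    rw [← Module.finrank_mul_finrank Qab F F⟮α⟯, IntermediateField.adjoin.finrank hintF]
  have : FiniteDimensional F F⟮α⟯ := IntermediateField.adjoin.finiteDimensional hintF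
  have : FiniteDimensional Qab F⟮α⟯ := FiniteDimensional.trans Qab F F⟮α⟯
  have : IsScalarTower Qab F⟮α⟯ (AlgebraicClosure ℚ) := IsScalarTower.of_algebraMap_eq fun _ => rfl
  have h6 : (minpoly Qab α).natDegree ≤ Module.finrank Qab F⟮α⟯ := by
    have h7 : minpoly Qab (algebraMap F⟮α⟯ (AlgebraicClosure ℚ) (AdjoinSimple.gen F α)) =
        minpoly Qab (AdjoinSimple.gen F α) :=
      minpoly.algebraMap_eq (FaithfulSMul.algebraMap_injective F⟮α⟯ (AlgebraicClosure ℚ)) _
    rw [AdjoinSimple.algebraMap_gen] at h7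
    rw [h7]
    exact minpoly.natDegree_le _
  calc (minpoly Qab α).natDegree ≤ Module.finrank Qab F * (minpoly F α).natDegree := by
        rw [← h5]; exact h6
    _ ≤ _ := Nat.mul_le_mul_left _ h1

end Pool.Agent.P8H44.RL
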